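import Mathlib

set_option autoImplicit false

namespace Pool.Agent.Lib.MP_9fb481_co

abbrev Z3 := ℤ × ℤ × ℤ

abbrev E := EuclideanSpace ℝ (Fin 3)

def dot (a b : Z3) : ℤ := a.1 * b.1 + a.2.1 * b.2.1 + a.2.2 * b.2.2

/-- The scale of the integer coordinates. -/
def sc : ℤ := 100000

/-- The scale of the directions. -/
def dd : ℤ := 1048576

noncomputable def vec (x y z : ℝ) : E := WithLp.toLp 2 ![x, y, z]

@[simp] theorem vec_zero (x y z : ℝ) : vec x y z 0 = x := rfl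
@[simp] theorem vec_one (x y z : ℝ) : vec x y z 1 = y := rfl
@[simp] theorem vec_two (x y z : ℝ) : vec x y z 2 = z := rfl

theorem norm_E (w : E) : ‖w‖ = √(w 0 ^ 2 + w 1 ^ 2 + w 2 ^ 2) := by
  rw [EuclideanSpace.norm_eq, Fin.sum_univ_three]
  simp

theorem norm_vec (x y z : ℝ) : ‖vec x y z‖ = √(x ^ 2 + y ^ 2 + z ^ 2) := by
  rw [norm_E]; simp

def CovR (a : Z3) (T : ℤ) (x y z : ℝ) : Prop :=
  (T : ℝ) * √(x ^ 2 + y ^ 2 + z ^ 2) < 8 * sc * (a.1 * x + a.2.1 * y + a.2.2 * z)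

theorem CovR.comb {a : Z3} {T : ℤ} (hT : 0 ≤ T) {x y z x' y' z' l : ℝ} (h : CovR a T x y z)
    (h' : CovR a T x' y' z') (h0 : 0 ≤ l) (h1 : l ≤ 1) :
    CovR a T ((1 - l) * x + l * x') ((1 - l) * y + l * y') ((1 - l) * z + l * z') := by
  unfold CovR at *
  rw [← norm_vec] at *
  have e : vec ((1 - l) * x + l * x') ((1 - l) * y + l * y') ((1 - l) * z + l * z') =
      (1 - l) • vec x y z + l • vec x' y' z' := by
    ext i; fin_cases i <;> simp
  have hn : ‖(1 - l) • vec x y z + l • vec x' y' z'‖ ≤ (1 - l) * ‖vec x y z‖ + l * ‖vec x' y' z'‖ := by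
    refine (norm_add_le _ _).trans ?_
    rw [norm_smul, norm_smul, Real.norm_of_nonneg (by linarith), Real.norm_of_nonneg h0]
  rw [e]
  have hT' : (0 : ℝ) ≤ T := by exact_mod_cast hT
  have h2 := mul_le_mul_of_nonneg_left hn hT'
  rcases h0.eq_or_lt with rfl | h0'
  · simpa using h
  · have h3 := mul_le_mul_of_nonneg_left h.le (by linarith : 0 ≤ 1 - l)
    have h4 := mul_lt_mul_of_pos_left h' h0'
    nlinarith

theorem CovR.of_eq {a a' : Z3} {T : ℤ} {x y z x' y' z' : ℝ} (h : CovR a T x y z)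
    (h1 : x' ^ 2 + y' ^ 2 + z' ^ 2 = x ^ 2 + y ^ 2 + z ^ 2)
    (h2 : a'.1 * x' + a'.2.1 * y' + a'.2.2 * z' = a.1 * x + a.2.1 * y + a.2.2 * z) :
    CovR a' T x' y' z' := by
  unfold CovR at *
  rw [h1, h2]; exact h

theorem exists_param {s h y : ℝ} (h1 : s ≤ y) (h2 : y ≤ s + h) :
    ∃ l : ℝ, 0 ≤ l ∧ l ≤ 1 ∧ y = (1 - l) * s + l * (s + h) := by
  rcases (by linarith : 0 ≤ h).eq_or_lt with h0 | h0
  · exact ⟨0, le_rfl, zero_le_one, by linarith⟩
  · refine ⟨(y - s) / h, div_nonneg (by linarith) h0.le, (div_le_one h0).2 (by linarith), ?_⟩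
    field_simp
    ring

def cov (a : Z3) (T : ℤ) (w : Z3) : Bool :=
  decide (0 < dot a w) && decide (T * T * dot w w < (8 * sc * dot a w) * (8 * sc * dot a w))

theorem cov_sound {a : Z3} {T : ℤ} {w : Z3} (h : cov a T w = true) :
    CovR a T w.1 w.2.1 w.2.2 := by
  simp only [cov, Bool.and_eq_true, decide_eq_true_eq] at h
  obtain ⟨h1, h2⟩ := h
  unfold CovR
  have h1' : (0 : ℝ) < a.1 * w.1 + a.2.1 * w.2.1 + a.2.2 * w.2.2 := by
    unfold dot at h1; exact_mod_cast h1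
  have h2' : (T : ℝ) * T * (w.1 * w.1 + w.2.1 * w.2.1 + w.2.2 * w.2.2) <
      (8 * sc * (a.1 * w.1 + a.2.1 * w.2.1 + a.2.2 * w.2.2)) *
      (8 * sc * (a.1 * w.1 + a.2.1 * w.2.1 + a.2.2 * w.2.2)) := by
    unfold dot at h2; exact_mod_cast h2
  have hs : (0 : ℝ) < sc := by norm_num [sc]
  refine lt_of_pow_lt_pow_left₀ 2 (by positivity) ?_
  rw [mul_pow, Real.sq_sqrt (by positivity)]
  nlinarith

inductive QT
  | leaf (i : ℕ)
  | node (a b c d : QT)

def chk (L : List (Z3 × ℤ)) : QT → ℤ → ℤ → ℤ → Bool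
  | .leaf i, s, t, h =>
    match L[i]? with
    | some p => decide (0 ≤ p.2) && cov p.1 p.2 (dd, s, t) && cov p.1 p.2 (dd, s + h, t) &&
        cov p.1 p.2 (dd, s, t + h) && cov p.1 p.2 (dd, s + h, t + h)
    | none => false
  | .node a b c d, s, t, h =>
    decide (h / 2 + h / 2 = h) && chk L a s t (h / 2) && chk L b (s + h / 2) t (h / 2) &&
      chk L c s (t + h / 2) (h / 2) && chk L d (s + h / 2) (t + h / 2) (h / 2)

theorem chk_sound (L : List (Z3 × ℤ)) (q : QT) : ∀ (s t h : ℤ), chk L q s t h = true →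
    ∀ y z : ℝ, s ≤ y → y ≤ s + h → t ≤ z → z ≤ t + h → ∃ p ∈ L, CovR p.1 p.2 dd y z := by
  induction q with
  | leaf i =>
    intro s t h hc y z h1 h2 h3 h4
    unfold chk at hc
    rcases hp : L[i]? with _ | p
    · rw [hp] at hc; simp at hc
    · rw [hp] at hc
      simp only [Bool.and_eq_true, decide_eq_true_eq] at hc
      obtain ⟨⟨⟨⟨hT, c1⟩, c2⟩, c3⟩, c4⟩ := hc
      refine ⟨p, List.mem_of_getElem? hp, ?_⟩
      obtain ⟨l, l0, l1, rfl⟩ := exists_param h1 h2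
      obtain ⟨m, m0, m1, rfl⟩ := exists_param h3 h4
      have d1 := (cov_sound c1).comb hT (cov_sound c2) l0 l1
      have d2 := (cov_sound c3).comb hT (cov_sound c4) l0 l1
      have d3 := d1.comb hT d2 m0 m1
      push_cast at d3
      convert d3 using 1 <;> ring
  | node a b c d iha ihb ihc ihd =>
    intro s t h hc y z h1 h2 h3 h4
    unfold chk at hc
    simp only [Bool.and_eq_true, decide_eq_true_eq] at hc
    obtain ⟨⟨⟨⟨hh, c1⟩, c2⟩, c3⟩, c4⟩ := hc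
    have hh' : ((h / 2 : ℤ) : ℝ) + ((h / 2 : ℤ) : ℝ) = h := by exact_mod_cast hh
    rcases le_total y (s + ((h / 2 : ℤ) : ℝ)) with hy | hy <;>
      rcases le_total z (t + ((h / 2 : ℤ) : ℝ)) with hz | hz
    · exact iha _ _ _ c1 y z h1 hy h3 hz
    · exact ihc _ _ _ c3 y z h1 hy (by push_cast; linarith) (by push_cast; linarith)
    · exact ihb _ _ _ c2 y z (by push_cast; linarith) (by push_cast; linarith) h3 hz
    · exact ihd _ _ _ c4 y z (by push_cast; linarith) (by push_cast; linarith)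
        (by push_cast; linarith) (by push_cast; linarith)

theorem face_sound {L : List (Z3 × ℤ)} {q : QT} (h : chk L q (-dd) (-dd) (2 * dd) = true)
    {x y z : ℝ} (hx : 0 < x) (hy : |y| ≤ x) (hz : |z| ≤ x) : ∃ p ∈ L, CovR p.1 p.2 x y z := by
  have hd : (0 : ℝ) < dd := by norm_num [dd]
  have key : ∀ u : ℝ, |u| ≤ x → ((-dd : ℤ) : ℝ) ≤ dd * u / x ∧
      dd * u / x ≤ ((-dd : ℤ) : ℝ) + ((2 * dd : ℤ) : ℝ) := by
    intro u hu
    obtain ⟨u1, u2⟩ := abs_le.1 hu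
    push_cast
    constructor
    · rw [le_div_iff₀ hx]; nlinarith
    · rw [div_le_iff₀ hx]; nlinarith
  obtain ⟨p, hp, hc⟩ := chk_sound L q _ _ _ h (dd * y / x) (dd * z / x) (key y hy).1 (key y hy).2
    (key z hz).1 (key z hz).2
  refine ⟨p, hp, ?_⟩
  unfold CovR at *
  have e1 : √((dd : ℝ) ^ 2 + (dd * y / x) ^ 2 + (dd * z / x) ^ 2) =
      dd / x * √(x ^ 2 + y ^ 2 + z ^ 2) := by
    rw [← Real.sqrt_sq (by positivity : (0 : ℝ) ≤ dd / x), ← Real.sqrt_mul (by positivity)]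
    congr 1
    field_simp
  have e2 : (p.1.1 * (dd : ℝ) + p.1.2.1 * (dd * y / x) + p.1.2.2 * (dd * z / x)) =
      dd / x * (p.1.1 * x + p.1.2.1 * y + p.1.2.2 * z) := by
    field_simp
  rw [e1, e2] at hc
  have hpos : (0 : ℝ) < dd / x := by positivity
  refine lt_of_mul_lt_mul_left (a := dd / x) ?_ hpos.le
  linarith

def f0 (p : Z3 × ℤ) : Z3 × ℤ := p
def f1 (p : Z3 × ℤ) : Z3 × ℤ := ((-p.1.1, p.1.2.1, p.1.2.2), p.2)
def f2 (p : Z3 × ℤ) : Z3 × ℤ := ((p.1.2.1, p.1.1, p.1.2.2), p.2)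
def f3 (p : Z3 × ℤ) : Z3 × ℤ := ((-p.1.2.1, p.1.1, p.1.2.2), p.2)
def f4 (p : Z3 × ℤ) : Z3 × ℤ := ((p.1.2.2, p.1.1, p.1.2.1), p.2)
def f5 (p : Z3 × ℤ) : Z3 × ℤ := ((-p.1.2.2, p.1.1, p.1.2.1), p.2)

def chkAll (L : List (Z3 × ℤ)) (q0 q1 q2 q3 q4 q5 : QT) : Bool :=
  chk (L.map f0) q0 (-dd) (-dd) (2 * dd) && chk (L.map f1) q1 (-dd) (-dd) (2 * dd) &&
  chk (L.map f2) q2 (-dd) (-dd) (2 * dd) && chk (L.map f3) q3 (-dd) (-dd) (2 * dd) &&
  chk (L.map f4) q4 (-dd) (-dd) (2 * dd) && chk (L.map f5) q5 (-dd) (-dd) (2 * dd)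

theorem all_sound {L : List (Z3 × ℤ)} {q0 q1 q2 q3 q4 q5 : QT}
    (h : chkAll L q0 q1 q2 q3 q4 q5 = true) {x y z : ℝ} (hne : 0 < x ^ 2 + y ^ 2 + z ^ 2) :
    ∃ p ∈ L, CovR p.1 p.2 x y z := by
  simp only [chkAll, Bool.and_eq_true] at h
  obtain ⟨⟨⟨⟨⟨h0, h1⟩, h2⟩, h3⟩, h4⟩, h5⟩ := h
  have hx : |y| ≤ |x| → |z| ≤ |x| → ∃ p ∈ L, CovR p.1 p.2 x y z := by
    intro a b
    rcases lt_trichotomy x 0 with hx | hx | hx
    · rw [abs_of_neg hx] at a b
      obtain ⟨p, hp, hc⟩ := face_sound h1 (neg_pos.2 hx) a b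
      obtain ⟨r, hr, rfl⟩ := List.mem_map.1 hp
      exact ⟨r, hr, hc.of_eq (by ring) (by simp only [f1]; push_cast; ring)⟩
    · subst hx
      simp only [abs_zero, abs_nonpos_iff] at a b
      subst a b
      simp at hne
    · rw [abs_of_pos hx] at a b
      obtain ⟨p, hp, hc⟩ := face_sound h0 hx a b
      obtain ⟨r, hr, rfl⟩ := List.mem_map.1 hp
      exact ⟨r, hr, hc⟩
  have hy : |x| ≤ |y| → |z| ≤ |y| → ∃ p ∈ L, CovR p.1 p.2 x y z := by
    intro a b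
    rcases lt_trichotomy y 0 with hx | hx | hx
    · rw [abs_of_neg hx] at a b
      obtain ⟨p, hp, hc⟩ := face_sound h3 (neg_pos.2 hx) a b
      obtain ⟨r, hr, rfl⟩ := List.mem_map.1 hp
      exact ⟨r, hr, hc.of_eq (by ring) (by simp only [f3]; push_cast; ring)⟩
    · subst hx
      simp only [abs_zero, abs_nonpos_iff] at a b
      subst a b
      simp at hne
    · rw [abs_of_pos hx] at a b
      obtain ⟨p, hp, hc⟩ := face_sound h2 hx a b
      obtain ⟨r, hr, rfl⟩ := List.mem_map.1 hp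
      exact ⟨r, hr, hc.of_eq (by ring) (by simp only [f2]; ring)⟩
  have hz : |x| ≤ |z| → |y| ≤ |z| → ∃ p ∈ L, CovR p.1 p.2 x y z := by
    intro a b
    rcases lt_trichotomy z 0 with hx | hx | hx
    · rw [abs_of_neg hx] at a b
      obtain ⟨p, hp, hc⟩ := face_sound h5 (neg_pos.2 hx) a b
      obtain ⟨r, hr, rfl⟩ := List.mem_map.1 hp
      exact ⟨r, hr, hc.of_eq (by ring) (by simp only [f5]; push_cast; ring)⟩
    · subst hx
      simp only [abs_zero, abs_nonpos_iff] at a b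
      subst a b
      simp at hne
    · rw [abs_of_pos hx] at a b
      obtain ⟨p, hp, hc⟩ := face_sound h4 hx a b
      obtain ⟨r, hr, rfl⟩ := List.mem_map.1 hp
      exact ⟨r, hr, hc.of_eq (by ring) (by simp only [f4]; ring)⟩
  rcases le_total |x| |y| with a | a <;> rcases le_total |y| |z| with b | b <;>
    rcases le_total |x| |z| with c | c
  all_goals first
    | exact hx (by assumption) (by assumption)
    | exact hy (by assumption) (by assumption)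
    | exact hz (by assumption) (by assumption)
    | exact hx (by linarith) (by linarith)

end Pool.Agent.Lib.MP_9fb481_co
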