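import Pool.Agent.Lib.MP_9fb481_co.Check

set_option autoImplicit false

namespace Pool.Agent.Lib.MP_9fb481_co

/-- The 49 neighbours (integer coordinates, to be divided by `sc`), each with three directions
pointing into its face. -/
def data : List (Z3 × Z3 × Z3 × Z3) := [
  ((-346966, -137261, 131439), (-17457, -8136, 4957), (-17502, -7191, 5823), (-17998, -6980, 4735)),
  ((-81808, 278761, 191927), (-12, 13093, 12562), (-2777, 16921, 5823), (-6902, 11323, 12196)),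
  ((374387, 74805, 115491), (18685, 3341, 6144), (18690, 3391, 6095), (18696, 3348, 6104)),
  ((221831, 173166, 199561), (14972, 5588, 8329), (8711, 12384, 9391), (9785, 5435, 14228)),
  ((-175479, -202210, 211376), (-4040, -12713, 12009), (-10866, -12503, 6543), (-9990, -6366, 13142)),
  ((111131, -372681, -89814), (5316, -18677, -4608), (5335, -18754, -4267), (5592, -18677, -4267)),
  ((-27785, 395606, 38810), (-2073, 19722, 2044), (-2037, 19723, 2057), (-2060, 19727, 2009)),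
  ((-57409, -112825, -319216), (-5346, -9721, -14074), (1518, -4469, -17164), (-7004, -2176, -16442)),
  ((135944, 287706, -240659), (6512, 14048, -12597), (6528, 14023, -12618), (6562, 14027, -12595)),
  ((-83567, -331290, -69928), (-7804, -16233, -732), (716, -17679, -4067), (-5464, -15265, -8117)),
  ((6086, -286101, 278128), (237, -14102, 14117), (203, -14509, 13699), (622, -14326, 13878)),
  ((322926, -112529, 67806), (17021, -1533, 6017), (16287, -6868, 662), (13956, -9306, 7714)),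
  ((-156501, -270404, -245966), (-7824, -13695, -12107), (-8954, -13004, -12148), (-8847, -13538, -11629)),
  ((-185020, 296074, -34584), (-5725, 17199, -85), (-10023, 13760, -6533), (-11439, 13900, 2242)),
  ((304059, -61567, -251165), (14984, -2996, -12843), (14989, -3023, -12830), (14955, -3024, -12872)),
  ((333360, 27641, -74531), (17588, 3690, 1245), (16849, -1695, -4060), (15679, 7015, -6062)),
  ((117792, -122271, 304540), (7483, -1722, 16374), (1582, -6433, 16765), (9133, -9223, 12724)),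
  ((140320, -136174, -338567), (7181, -4528, -17777), (6971, -7087, -16835), (9075, -5129, -16751)),
  ((-42042, 205937, -281291), (-1099, 6753, -16809), (1828, 12206, -13254), (-6746, 11600, -12416)),
  ((-263523, -294763, 40627), (-12207, -15567, 2305), (-13115, -14752, 2331), (-12566, -15337, 1646)),
  ((-273481, 254671, 139991), (-13410, 13177, 6707), (-13419, 13140, 6758), (-13461, 13142, 6673)),
  ((-289784, -154832, -99893), (-13733, -6324, -9386), (-13539, -11761, -1521), (-17216, -4100, -2729)),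
  ((295674, -45731, 254385), (15730, -496, 11941), (14075, -576, 13851), (14740, -2903, 12659)),
  ((-70523, -126852, 371866), (-3241, -6525, 18585), (-3278, -6486, 18592), (-3237, -6492, 18597)),
  ((126281, 343207, 155146), (5317, 16975, 8978), (5074, 17372, 8298), (5780, 17078, 8374)),
  ((-300982, 56700, 148188), (-16244, -1610, 6683), (-16781, 5650, 2815), (-12723, 5975, 10932)),
  ((42041, -291133, -258908), (-110, -15149, -12639), (2348, -14057, -13467), (2063, -15965, -11368)),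
  ((247001, -237495, 204317), (12528, -11558, 10368), (12460, -12045, 9885), (12121, -11998, 10349)),
  ((22518, 54307, -394678), (865, 3128, -19692), (1256, 2939, -19696), (1159, 3230, -19661)),
  ((268842, -294731, 5408), (13567, -14619, 428), (13462, -14709, 783), (13278, -14884, 410)),
  ((-97452, -365753, 126631), (-4604, -18462, 6034), (-4563, -18461, 6069), (-4564, -18473, 6035)),
  ((307268, 244376, 33291), (16804, 10417, 1598), (15787, 11692, 1621), (16356, 11212, -109)),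
  ((133156, 308236, -41694), (5600, 16499, 2575), (10830, 13249, -4751), (2652, 16644, -5772)),
  ((-229920, 238541, -220837), (-11067, 12375, -11005), (-11928, 11879, -10644), (-11430, 11444, -11632)),
  ((-30016, 363494, -158624), (-2657, 17977, -8166), (-2192, 18360, -7376), (-1653, 18002, -8297)),
  ((182398, 94336, -281312), (12038, 558, -13568), (5184, 3755, -16940), (11496, 7776, -11499)),
  ((-298596, 56306, -175120), (-13713, -325, -11840), (-13459, 7837, -9650), (-17197, 1898, -5185)),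
  ((164783, 64761, 357706), (8486, 2920, 17829), (8358, 3041, 17866), (8355, 2936, 17886)),
  ((-254939, -101817, -289607), (-12897, -4550, -14539), (-12897, -4492, -14559), (-12917, -4516, -14533)),
  ((-34096, 66595, 336261), (-6333, 5803, 15854), (2914, 3123, 17322), (-2897, -1671, 17682)),
  ((-185898, 79379, -338775), (-7967, 3421, -17796), (-9763, 2295, -17074), (-9580, 4715, -16607)),
  ((208563, -216788, -168683), (6233, -14048, -9498), (11737, -12862, -4217), (12354, -7128, -10823)),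
  ((300061, 204170, -162535), (14932, 10981, -7288), (14759, 10466, -8254), (14247, 11131, -8363)),
  ((-397322, -9600, -14105), (-19856, -106, -1239), (-19855, -84, -1275), (-19857, -49, -1262)),
  ((-241420, -42132, 311591), (-11451, -1736, 16110), (-10624, -1791, 16743), (-11088, -854, 16511)),
  ((70430, 235742, 314357), (3428, 12024, 15561), (3383, 11982, 15603), (3438, 11950, 15615)),
  ((95653, -319496, 102405), (421, -17104, 5673), (5580, -17201, 550), (8631, -13939, 7876)),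
  ((-350853, 184275, -30520), (-17444, 9562, -562), (-17389, 9428, -2003), (-18022, 8343, -1271)),
  ((-210059, 155178, 301530), (-10308, 8466, 14848), (-10226, 8442, 14918), (-10293, 8316, 14936))]

def tA0 : QT :=
  .node (.node (.leaf 41) (.node (.leaf 41) (.node (.node (.node (.leaf 35) (.leaf 35) (.leaf 41)
  (.leaf 35)) (.leaf 35) (.node (.leaf 41) (.leaf 14) (.leaf 14) (.leaf 14)) (.leaf 35)) (.leaf
  35) (.node (.leaf 14) (.node (.leaf 14) (.leaf 15) (.leaf 14) (.leaf 14)) (.leaf 14) (.leaf 15))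
  (.leaf 15)) (.leaf 41) (.leaf 15)) (.node (.leaf 41) (.leaf 41) (.node (.leaf 41) (.leaf 41)
  (.leaf 41) (.leaf 11)) (.leaf 11)) (.node (.node (.leaf 41) (.leaf 15) (.leaf 15) (.leaf 15))
  (.leaf 15) (.leaf 11) (.leaf 15))) (.node (.node (.leaf 35) (.leaf 35) (.leaf 15) (.leaf 15))
  (.node (.leaf 35) (.leaf 35) (.node (.leaf 35) (.leaf 35) (.leaf 15) (.leaf 42)) (.node (.node
  (.leaf 35) (.leaf 35) (.leaf 35) (.node (.leaf 35) (.leaf 35) (.leaf 42) (.leaf 32))) (.node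
  (.node (.leaf 35) (.leaf 32) (.leaf 32) (.leaf 32)) (.leaf 32) (.leaf 32) (.leaf 32)) (.node
  (.leaf 42) (.node (.leaf 42) (.leaf 32) (.leaf 32) (.leaf 32)) (.leaf 42) (.leaf 32)) (.leaf
  32))) (.leaf 15) (.node (.node (.leaf 15) (.node (.leaf 15) (.leaf 42) (.leaf 15) (.node (.leaf
  15) (.node (.leaf 42) (.leaf 32) (.leaf 15) (.leaf 32)) (.leaf 15) (.leaf 32))) (.leaf 15)
  (.node (.leaf 15) (.node (.leaf 15) (.leaf 32) (.leaf 15) (.leaf 32)) (.leaf 15) (.node (.leaf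
  15) (.leaf 32) (.leaf 15) (.leaf 32)))) (.node (.node (.node (.leaf 42) (.leaf 32) (.leaf 32)
  (.leaf 32)) (.leaf 32) (.leaf 32) (.leaf 32)) (.leaf 32) (.leaf 32) (.leaf 32)) (.node (.leaf
  15) (.node (.leaf 15) (.leaf 32) (.leaf 15) (.leaf 32)) (.leaf 15) (.node (.leaf 15) (.node
  (.leaf 32) (.leaf 32) (.node (.leaf 32) (.leaf 31) (.leaf 31) (.leaf 31)) (.leaf 31)) (.node
  (.leaf 15) (.leaf 31) (.leaf 15) (.leaf 31)) (.leaf 31))) (.leaf 32))) (.node (.leaf 11) (.leaf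
  11) (.node (.node (.leaf 11) (.leaf 11) (.node (.leaf 11) (.leaf 11) (.node (.leaf 11) (.leaf
  11) (.leaf 27) (.leaf 11)) (.leaf 11)) (.leaf 11)) (.leaf 11) (.node (.leaf 27) (.node (.leaf
  11) (.leaf 11) (.node (.leaf 11) (.leaf 11) (.leaf 16) (.leaf 16)) (.leaf 11)) (.leaf 16) (.leaf
  16)) (.node (.leaf 11) (.leaf 11) (.leaf 16) (.leaf 16))) (.node (.leaf 11) (.node (.leaf 11)
  (.leaf 11) (.leaf 11) (.node (.leaf 11) (.leaf 11) (.leaf 11) (.leaf 22))) (.node (.leaf 11)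
  (.leaf 22) (.leaf 16) (.leaf 16)) (.leaf 22))) (.node (.node (.leaf 15) (.node (.leaf 15) (.leaf
  15) (.leaf 15) (.node (.leaf 15) (.leaf 15) (.leaf 3) (.leaf 3))) (.node (.leaf 11) (.node
  (.leaf 15) (.leaf 2) (.node (.leaf 11) (.leaf 2) (.leaf 11) (.leaf 2)) (.leaf 2)) (.leaf 11)
  (.node (.node (.leaf 11) (.leaf 3) (.leaf 3) (.leaf 3)) (.leaf 3) (.leaf 3) (.leaf 3))) (.node
  (.node (.node (.leaf 15) (.leaf 3) (.leaf 3) (.leaf 3)) (.leaf 3) (.leaf 3) (.leaf 3)) (.leaf 3)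
  (.leaf 3) (.leaf 3))) (.node (.node (.node (.leaf 15) (.node (.leaf 15) (.leaf 15) (.leaf 15)
  (.leaf 31)) (.leaf 15) (.leaf 31)) (.leaf 31) (.node (.node (.leaf 15) (.node (.leaf 15) (.leaf
  3) (.leaf 3) (.leaf 3)) (.leaf 3) (.leaf 3)) (.leaf 3) (.leaf 3) (.leaf 3)) (.leaf 3)) (.leaf
  31) (.leaf 3) (.leaf 3)) (.node (.node (.node (.leaf 11) (.node (.leaf 11) (.leaf 3) (.leaf 3)
  (.leaf 3)) (.node (.leaf 11) (.leaf 11) (.leaf 11) (.node (.leaf 11) (.leaf 3) (.leaf 3) (.leaf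
  3))) (.leaf 3)) (.leaf 3) (.node (.node (.leaf 11) (.leaf 3) (.node (.leaf 11) (.node (.leaf 11)
  (.leaf 3) (.leaf 22) (.leaf 3)) (.leaf 22) (.leaf 3)) (.leaf 3)) (.leaf 3) (.node (.leaf 22)
  (.leaf 3) (.leaf 22) (.leaf 3)) (.leaf 3)) (.leaf 3)) (.leaf 3) (.node (.node (.leaf 22) (.leaf
  3) (.leaf 3) (.leaf 3)) (.leaf 3) (.leaf 3) (.leaf 3)) (.leaf 3)) (.leaf 3))

def tA1 : QT :=
  .node (.node (.leaf 21) (.node (.leaf 21) (.leaf 36) (.leaf 21) (.leaf 36)) (.leaf 21) (.node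
  (.leaf 21) (.leaf 21) (.leaf 21) (.node (.leaf 21) (.leaf 21) (.leaf 21) (.node (.leaf 21)
  (.leaf 21) (.leaf 21) (.leaf 43))))) (.node (.leaf 36) (.node (.leaf 36) (.node (.leaf 36)
  (.leaf 33) (.leaf 36) (.node (.leaf 33) (.leaf 33) (.leaf 36) (.leaf 13))) (.leaf 36) (.node
  (.leaf 36) (.leaf 13) (.node (.leaf 36) (.leaf 13) (.leaf 13) (.leaf 13)) (.leaf 13))) (.node
  (.leaf 36) (.leaf 36) (.node (.leaf 36) (.leaf 36) (.node (.leaf 36) (.leaf 36) (.leaf 25)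
  (.leaf 25)) (.node (.leaf 36) (.leaf 36) (.leaf 25) (.leaf 25))) (.node (.leaf 36) (.leaf 36)
  (.node (.leaf 36) (.leaf 36) (.leaf 25) (.leaf 25)) (.node (.node (.leaf 36) (.leaf 36) (.node
  (.leaf 36) (.leaf 36) (.leaf 25) (.node (.leaf 36) (.leaf 36) (.leaf 25) (.leaf 25))) (.leaf
  47)) (.leaf 47) (.leaf 25) (.leaf 47)))) (.node (.node (.leaf 36) (.leaf 36) (.leaf 36) (.leaf
  13)) (.leaf 13) (.node (.node (.leaf 36) (.node (.leaf 36) (.leaf 13) (.leaf 36) (.leaf 13))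
  (.leaf 47) (.leaf 13)) (.leaf 13) (.leaf 47) (.leaf 13)) (.leaf 13))) (.node (.node (.node
  (.leaf 21) (.leaf 21) (.node (.leaf 19) (.leaf 21) (.leaf 4) (.leaf 4)) (.leaf 21)) (.leaf 21)
  (.leaf 4) (.node (.leaf 4) (.node (.leaf 4) (.node (.node (.leaf 21) (.leaf 21) (.leaf 4) (.leaf
  4)) (.node (.leaf 21) (.leaf 21) (.node (.leaf 4) (.leaf 0) (.leaf 0) (.leaf 0)) (.leaf 0))
  (.leaf 4) (.leaf 0)) (.leaf 4) (.leaf 4)) (.leaf 4) (.leaf 4))) (.node (.node (.leaf 21) (.leaf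
  21) (.node (.leaf 21) (.leaf 21) (.leaf 21) (.node (.leaf 21) (.leaf 21) (.leaf 0) (.leaf 0)))
  (.node (.leaf 21) (.leaf 21) (.node (.leaf 21) (.leaf 21) (.leaf 0) (.leaf 25)) (.leaf 25)))
  (.node (.node (.leaf 21) (.leaf 21) (.leaf 21) (.leaf 25)) (.leaf 25) (.leaf 25) (.leaf 25))
  (.node (.leaf 0) (.node (.leaf 0) (.leaf 25) (.leaf 0) (.leaf 0)) (.leaf 0) (.leaf 25)) (.leaf
  25)) (.leaf 4) (.node (.node (.leaf 4) (.leaf 25) (.leaf 4) (.leaf 4)) (.leaf 25) (.leaf 4)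
  (.leaf 25))) (.node (.leaf 25) (.node (.node (.node (.leaf 25) (.node (.node (.leaf 47) (.leaf
  13) (.leaf 25) (.leaf 25)) (.leaf 13) (.leaf 25) (.leaf 13)) (.leaf 25) (.leaf 25)) (.leaf 13)
  (.leaf 25) (.node (.leaf 25) (.leaf 13) (.leaf 25) (.leaf 25))) (.leaf 13) (.leaf 25) (.node
  (.node (.leaf 25) (.leaf 13) (.leaf 25) (.leaf 25)) (.leaf 13) (.leaf 25) (.node (.node (.leaf
  13) (.leaf 13) (.leaf 20) (.leaf 13)) (.leaf 13) (.leaf 20) (.leaf 20)))) (.leaf 25) (.node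
  (.leaf 25) (.node (.leaf 25) (.node (.leaf 20) (.leaf 20) (.leaf 25) (.leaf 1)) (.leaf 25)
  (.leaf 1)) (.leaf 25) (.leaf 25)))

def tA2 : QT :=
  .node (.node (.node (.node (.leaf 33) (.node (.leaf 18) (.leaf 18) (.leaf 33) (.leaf 18)) (.node
  (.leaf 33) (.leaf 33) (.leaf 13) (.leaf 13)) (.node (.leaf 33) (.node (.leaf 18) (.leaf 18)
  (.leaf 13) (.leaf 18)) (.leaf 13) (.leaf 13))) (.node (.leaf 18) (.leaf 18) (.node (.leaf 18)
  (.leaf 18) (.leaf 13) (.leaf 18)) (.leaf 18)) (.leaf 13) (.leaf 13)) (.node (.leaf 18) (.leaf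
  18) (.node (.leaf 18) (.leaf 18) (.leaf 13) (.node (.leaf 13) (.leaf 18) (.leaf 13) (.leaf 13)))
  (.leaf 18)) (.leaf 13) (.node (.leaf 13) (.node (.node (.node (.leaf 13) (.node (.leaf 13)
  (.leaf 18) (.leaf 13) (.leaf 13)) (.leaf 13) (.leaf 13)) (.leaf 34) (.leaf 13) (.node (.leaf 13)
  (.leaf 34) (.leaf 13) (.leaf 34))) (.leaf 34) (.leaf 13) (.node (.node (.leaf 34) (.leaf 32)
  (.leaf 32) (.leaf 32)) (.leaf 32) (.leaf 32) (.leaf 32))) (.leaf 13) (.node (.leaf 13) (.leaf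
  32) (.leaf 13) (.leaf 32)))) (.node (.node (.leaf 18) (.node (.leaf 18) (.node (.leaf 18) (.leaf
  35) (.leaf 18) (.leaf 8)) (.node (.leaf 18) (.leaf 18) (.leaf 18) (.leaf 32)) (.node (.node
  (.leaf 18) (.leaf 8) (.leaf 8) (.leaf 8)) (.leaf 8) (.leaf 32) (.leaf 8))) (.node (.leaf 18)
  (.node (.leaf 18) (.leaf 18) (.leaf 18) (.leaf 32)) (.node (.leaf 18) (.leaf 18) (.leaf 32)
  (.leaf 32)) (.leaf 32)) (.leaf 32)) (.node (.node (.leaf 35) (.leaf 35) (.leaf 32) (.leaf 32))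
  (.leaf 35) (.leaf 32) (.leaf 32)) (.leaf 32) (.leaf 32)) (.node (.node (.leaf 13) (.leaf 13)
  (.leaf 13) (.leaf 1)) (.node (.leaf 13) (.node (.leaf 13) (.node (.leaf 32) (.leaf 32) (.leaf 6)
  (.leaf 6)) (.leaf 1) (.node (.leaf 1) (.leaf 32) (.leaf 1) (.leaf 1))) (.leaf 1) (.leaf 1))
  (.leaf 1) (.leaf 1)) (.node (.node (.leaf 32) (.leaf 32) (.node (.leaf 1) (.leaf 32) (.leaf 1)
  (.node (.leaf 1) (.node (.leaf 1) (.leaf 32) (.leaf 1) (.leaf 1)) (.leaf 1) (.leaf 1))) (.node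
  (.leaf 32) (.leaf 32) (.leaf 24) (.node (.leaf 24) (.leaf 3) (.leaf 3) (.leaf 3)))) (.node
  (.leaf 32) (.leaf 32) (.leaf 32) (.leaf 3)) (.node (.leaf 1) (.node (.node (.node (.leaf 1)
  (.leaf 24) (.leaf 1) (.node (.leaf 1) (.leaf 24) (.leaf 1) (.leaf 24))) (.leaf 24) (.leaf 1)
  (.leaf 3)) (.leaf 3) (.node (.leaf 1) (.leaf 3) (.leaf 1) (.leaf 3)) (.leaf 3)) (.leaf 1) (.node
  (.node (.leaf 1) (.leaf 3) (.leaf 1) (.leaf 3)) (.leaf 3) (.leaf 3) (.leaf 3))) (.leaf 3))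

def tA3 : QT :=
  .node (.node (.node (.leaf 21) (.node (.node (.leaf 12) (.leaf 12) (.node (.leaf 12) (.leaf 12)
  (.leaf 21) (.leaf 12)) (.leaf 12)) (.leaf 12) (.node (.leaf 21) (.leaf 12) (.leaf 21) (.leaf 9))
  (.leaf 12)) (.leaf 21) (.leaf 9)) (.node (.node (.leaf 7) (.leaf 7) (.leaf 9) (.leaf 9)) (.node
  (.leaf 7) (.leaf 7) (.node (.leaf 9) (.node (.leaf 7) (.leaf 7) (.leaf 9) (.leaf 9)) (.leaf 9)
  (.leaf 9)) (.node (.node (.leaf 7) (.leaf 26) (.node (.leaf 9) (.leaf 26) (.leaf 9) (.leaf 9))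
  (.leaf 26)) (.leaf 26) (.leaf 9) (.leaf 26))) (.leaf 9) (.leaf 9)) (.node (.leaf 21) (.leaf 9)
  (.leaf 21) (.leaf 9)) (.leaf 9)) (.node (.node (.leaf 26) (.leaf 41) (.node (.leaf 26) (.leaf
  26) (.leaf 9) (.node (.node (.leaf 9) (.leaf 26) (.leaf 9) (.node (.leaf 9) (.leaf 41) (.leaf 9)
  (.leaf 9))) (.leaf 41) (.leaf 9) (.leaf 41))) (.leaf 41)) (.leaf 41) (.node (.node (.leaf 9)
  (.node (.leaf 9) (.leaf 41) (.leaf 9) (.leaf 9)) (.leaf 9) (.leaf 9)) (.node (.leaf 41) (.leaf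
  41) (.node (.leaf 41) (.leaf 41) (.node (.node (.leaf 9) (.leaf 41) (.leaf 9) (.leaf 5)) (.leaf
  41) (.leaf 5) (.leaf 5)) (.leaf 41)) (.leaf 41)) (.node (.leaf 9) (.leaf 9) (.leaf 9) (.leaf
  46)) (.node (.node (.leaf 5) (.node (.leaf 5) (.leaf 41) (.leaf 5) (.leaf 41)) (.leaf 46) (.leaf
  46)) (.node (.leaf 41) (.leaf 41) (.leaf 46) (.leaf 41)) (.leaf 46) (.leaf 46))) (.node (.leaf
  41) (.leaf 41) (.node (.leaf 41) (.leaf 41) (.leaf 46) (.node (.leaf 41) (.leaf 41) (.leaf 46)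
  (.leaf 46))) (.leaf 41))) (.node (.node (.node (.leaf 21) (.node (.leaf 21) (.leaf 9) (.leaf 19)
  (.leaf 19)) (.leaf 19) (.node (.leaf 19) (.leaf 19) (.leaf 4) (.leaf 4))) (.node (.leaf 9)
  (.leaf 9) (.node (.node (.leaf 19) (.leaf 9) (.leaf 4) (.node (.leaf 4) (.leaf 9) (.leaf 4)
  (.leaf 4))) (.leaf 9) (.leaf 4) (.leaf 4)) (.node (.leaf 9) (.leaf 9) (.leaf 4) (.leaf 9)))
  (.leaf 4) (.leaf 4)) (.node (.leaf 9) (.leaf 9) (.node (.leaf 4) (.node (.leaf 9) (.leaf 9)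
  (.leaf 4) (.leaf 30)) (.leaf 4) (.leaf 4)) (.node (.node (.leaf 9) (.leaf 46) (.node (.leaf 30)
  (.leaf 46) (.leaf 30) (.leaf 46)) (.leaf 46)) (.leaf 46) (.node (.node (.leaf 4) (.leaf 46)
  (.leaf 4) (.leaf 4)) (.leaf 46) (.leaf 4) (.leaf 46)) (.leaf 46))) (.leaf 4) (.node (.leaf 4)
  (.node (.leaf 4) (.leaf 46) (.leaf 4) (.leaf 46)) (.leaf 4) (.node (.leaf 4) (.node (.leaf 4)
  (.leaf 46) (.leaf 4) (.node (.leaf 4) (.leaf 46) (.leaf 4) (.leaf 46))) (.leaf 4) (.leaf 4))))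
  (.node (.leaf 46) (.node (.leaf 46) (.node (.node (.leaf 46) (.leaf 29) (.leaf 46) (.leaf 46))
  (.node (.leaf 29) (.leaf 29) (.node (.leaf 29) (.leaf 29) (.leaf 46) (.leaf 11)) (.leaf 11))
  (.leaf 46) (.node (.leaf 46) (.leaf 11) (.leaf 11) (.leaf 11))) (.leaf 46) (.leaf 46)) (.node
  (.leaf 46) (.leaf 46) (.node (.leaf 46) (.leaf 46) (.node (.leaf 10) (.leaf 46) (.leaf 10)
  (.node (.leaf 10) (.leaf 16) (.leaf 10) (.leaf 16))) (.leaf 46)) (.leaf 46)) (.node (.leaf 46)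
  (.leaf 46) (.leaf 46) (.node (.leaf 46) (.node (.leaf 46) (.leaf 27) (.leaf 46) (.leaf 27))
  (.leaf 16) (.leaf 16))))

def tA4 : QT :=
  .node (.node (.leaf 4) (.node (.leaf 4) (.node (.leaf 4) (.leaf 4) (.leaf 4) (.node (.leaf 4)
  (.leaf 4) (.leaf 4) (.leaf 16))) (.leaf 4) (.node (.leaf 4) (.node (.leaf 4) (.leaf 16) (.leaf
  4) (.leaf 16)) (.leaf 4) (.leaf 16))) (.node (.leaf 4) (.leaf 4) (.node (.leaf 25) (.leaf 4)
  (.leaf 25) (.leaf 25)) (.node (.leaf 4) (.node (.leaf 4) (.leaf 4) (.node (.leaf 4) (.leaf 4)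
  (.leaf 4) (.node (.leaf 4) (.leaf 4) (.leaf 4) (.leaf 39))) (.node (.leaf 4) (.leaf 4) (.leaf
  39) (.leaf 39))) (.node (.leaf 44) (.leaf 44) (.leaf 44) (.node (.leaf 44) (.leaf 44) (.leaf 44)
  (.leaf 39))) (.node (.node (.leaf 44) (.leaf 39) (.leaf 39) (.leaf 39)) (.leaf 39) (.leaf 39)
  (.leaf 39)))) (.node (.node (.leaf 4) (.leaf 4) (.leaf 4) (.node (.leaf 4) (.leaf 4) (.leaf 4)
  (.leaf 39))) (.node (.node (.leaf 4) (.leaf 4) (.leaf 4) (.node (.leaf 4) (.leaf 16) (.leaf 4)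
  (.leaf 16))) (.leaf 16) (.node (.leaf 23) (.node (.leaf 23) (.leaf 16) (.leaf 23) (.leaf 16))
  (.leaf 39) (.leaf 39)) (.leaf 16)) (.node (.node (.leaf 4) (.leaf 39) (.leaf 39) (.leaf 39))
  (.leaf 39) (.leaf 39) (.leaf 39)) (.leaf 39))) (.node (.node (.node (.node (.leaf 10) (.leaf 16)
  (.leaf 16) (.leaf 16)) (.leaf 16) (.leaf 16) (.leaf 16)) (.leaf 16) (.leaf 16) (.leaf 16))
  (.leaf 16) (.leaf 16) (.node (.leaf 16) (.leaf 16) (.leaf 16) (.node (.leaf 16) (.leaf 16)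
  (.leaf 16) (.leaf 22)))) (.node (.node (.leaf 25) (.node (.node (.leaf 25) (.node (.node (.leaf
  25) (.leaf 39) (.leaf 25) (.leaf 25)) (.leaf 39) (.leaf 25) (.leaf 39)) (.leaf 25) (.leaf 39))
  (.leaf 39) (.leaf 25) (.leaf 39)) (.leaf 25) (.node (.node (.leaf 25) (.leaf 25) (.leaf 25)
  (.leaf 39)) (.leaf 39) (.node (.leaf 25) (.leaf 39) (.leaf 25) (.leaf 39)) (.leaf 39))) (.leaf
  39) (.node (.node (.leaf 25) (.leaf 25) (.leaf 25) (.node (.leaf 25) (.leaf 25) (.leaf 1) (.leaf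
  1))) (.node (.node (.leaf 48) (.leaf 39) (.node (.leaf 25) (.leaf 48) (.leaf 25) (.leaf 1))
  (.node (.leaf 48) (.leaf 1) (.leaf 1) (.leaf 1))) (.leaf 39) (.leaf 1) (.leaf 1)) (.node (.leaf
  25) (.leaf 1) (.leaf 1) (.leaf 1)) (.leaf 1)) (.node (.leaf 1) (.leaf 39) (.leaf 1) (.leaf 1)))
  (.node (.node (.leaf 39) (.node (.leaf 16) (.leaf 16) (.leaf 39) (.node (.leaf 39) (.leaf 37)
  (.leaf 39) (.leaf 37))) (.leaf 39) (.node (.leaf 39) (.node (.leaf 39) (.leaf 3) (.leaf 3)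
  (.leaf 3)) (.leaf 39) (.leaf 3))) (.node (.node (.leaf 16) (.node (.leaf 16) (.leaf 16) (.node
  (.leaf 16) (.leaf 16) (.leaf 3) (.leaf 3)) (.leaf 3)) (.node (.node (.leaf 16) (.leaf 3) (.leaf
  3) (.leaf 3)) (.leaf 3) (.leaf 3) (.leaf 3)) (.leaf 3)) (.node (.node (.leaf 16) (.node (.leaf
  16) (.node (.leaf 16) (.leaf 16) (.leaf 3) (.leaf 3)) (.leaf 3) (.leaf 3)) (.leaf 3) (.leaf 3))
  (.node (.node (.node (.leaf 16) (.leaf 22) (.leaf 3) (.leaf 3)) (.leaf 22) (.leaf 3) (.leaf 3))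
  (.node (.leaf 22) (.leaf 3) (.leaf 3) (.leaf 3)) (.leaf 3) (.leaf 3)) (.leaf 3) (.leaf 3))
  (.leaf 3) (.leaf 3)) (.node (.node (.leaf 39) (.leaf 39) (.leaf 39) (.node (.leaf 39) (.leaf 39)
  (.leaf 39) (.leaf 45))) (.leaf 3) (.node (.leaf 1) (.node (.leaf 1) (.leaf 45) (.leaf 1) (.leaf
  1)) (.leaf 1) (.leaf 1)) (.leaf 3)) (.leaf 3))

def tA5 : QT :=
  .node (.node (.node (.leaf 21) (.leaf 7) (.node (.leaf 21) (.leaf 7) (.leaf 21) (.leaf 7))
  (.leaf 7)) (.leaf 7) (.node (.node (.leaf 21) (.leaf 7) (.node (.leaf 21) (.leaf 38) (.leaf 36)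
  (.node (.leaf 36) (.leaf 38) (.leaf 36) (.leaf 36))) (.node (.leaf 7) (.leaf 7) (.node (.leaf 7)
  (.leaf 7) (.node (.leaf 36) (.leaf 7) (.leaf 36) (.leaf 7)) (.leaf 7)) (.leaf 7))) (.leaf 7)
  (.node (.leaf 36) (.node (.leaf 36) (.leaf 7) (.leaf 36) (.node (.leaf 7) (.leaf 7) (.leaf 36)
  (.leaf 7))) (.leaf 36) (.leaf 36)) (.node (.leaf 7) (.leaf 7) (.node (.leaf 7) (.leaf 7) (.leaf
  36) (.leaf 7)) (.leaf 7))) (.leaf 7)) (.node (.node (.node (.leaf 7) (.leaf 26) (.leaf 7) (.leaf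
  7)) (.leaf 41) (.leaf 7) (.node (.node (.leaf 7) (.leaf 41) (.leaf 7) (.leaf 7)) (.leaf 41)
  (.leaf 7) (.leaf 17))) (.leaf 41) (.node (.leaf 7) (.leaf 17) (.leaf 7) (.node (.node (.leaf 7)
  (.leaf 17) (.leaf 7) (.node (.leaf 7) (.leaf 35) (.leaf 35) (.leaf 35))) (.node (.leaf 17)
  (.leaf 17) (.leaf 35) (.leaf 35)) (.leaf 35) (.leaf 35))) (.node (.node (.leaf 17) (.leaf 41)
  (.node (.leaf 17) (.leaf 17) (.leaf 17) (.node (.leaf 17) (.leaf 17) (.leaf 17) (.leaf 35)))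
  (.node (.leaf 41) (.leaf 41) (.node (.node (.leaf 17) (.leaf 17) (.leaf 17) (.leaf 41)) (.leaf
  41) (.leaf 35) (.leaf 35)) (.node (.leaf 41) (.leaf 41) (.leaf 35) (.leaf 35)))) (.leaf 41)
  (.leaf 35) (.leaf 35))) (.node (.node (.leaf 36) (.node (.node (.leaf 36) (.node (.leaf 36)
  (.leaf 7) (.leaf 36) (.leaf 36)) (.leaf 36) (.leaf 36)) (.node (.node (.leaf 7) (.leaf 7) (.node
  (.leaf 7) (.leaf 7) (.node (.leaf 7) (.leaf 7) (.leaf 36) (.leaf 7)) (.leaf 7)) (.leaf 7))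
  (.leaf 7) (.leaf 40) (.leaf 40)) (.leaf 36) (.leaf 40)) (.leaf 36) (.node (.leaf 36) (.leaf 40)
  (.node (.leaf 36) (.node (.leaf 36) (.leaf 36) (.leaf 36) (.leaf 18)) (.leaf 36) (.leaf 18))
  (.leaf 18))) (.node (.node (.leaf 7) (.leaf 7) (.leaf 40) (.node (.node (.leaf 7) (.leaf 7)
  (.node (.leaf 7) (.leaf 7) (.leaf 40) (.leaf 7)) (.leaf 7)) (.leaf 7) (.leaf 18) (.leaf 18)))
  (.node (.leaf 7) (.leaf 7) (.node (.leaf 7) (.leaf 7) (.leaf 18) (.leaf 18)) (.node (.leaf 7)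
  (.node (.leaf 7) (.leaf 7) (.leaf 18) (.leaf 18)) (.leaf 18) (.leaf 18))) (.leaf 18) (.leaf 18))
  (.node (.node (.leaf 36) (.leaf 36) (.leaf 36) (.node (.leaf 36) (.leaf 18) (.leaf 36) (.leaf
  18))) (.leaf 18) (.node (.node (.leaf 36) (.leaf 36) (.leaf 36) (.node (.leaf 36) (.leaf 18)
  (.leaf 36) (.leaf 18))) (.leaf 18) (.leaf 33) (.leaf 18)) (.leaf 18)) (.leaf 18)) (.node (.node
  (.node (.node (.leaf 7) (.leaf 7) (.leaf 7) (.node (.leaf 7) (.leaf 7) (.leaf 7) (.leaf 35)))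
  (.node (.leaf 7) (.leaf 35) (.leaf 35) (.leaf 35)) (.node (.node (.leaf 7) (.leaf 28) (.leaf 18)
  (.leaf 28)) (.node (.leaf 28) (.leaf 28) (.leaf 28) (.leaf 35)) (.leaf 18) (.leaf 35)) (.leaf
  35)) (.leaf 35) (.node (.leaf 18) (.leaf 35) (.leaf 18) (.leaf 18)) (.leaf 35)) (.leaf 35)
  (.node (.leaf 18) (.leaf 35) (.leaf 18) (.node (.leaf 18) (.leaf 35) (.leaf 18) (.leaf 18)))
  (.leaf 35))

def tB0 : QT :=
  .node (.node (.leaf 41) (.leaf 14) (.node (.leaf 29) (.leaf 41) (.leaf 29) (.leaf 11)) (.node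
  (.node (.leaf 14) (.leaf 14) (.leaf 41) (.leaf 14)) (.leaf 14) (.leaf 11) (.leaf 15))) (.node
  (.node (.leaf 14) (.leaf 35) (.leaf 14) (.leaf 15)) (.leaf 42) (.leaf 15) (.leaf 42)) (.node
  (.leaf 11) (.leaf 11) (.leaf 27) (.leaf 22)) (.node (.leaf 2) (.leaf 31) (.node (.leaf 2) (.leaf
  2) (.leaf 22) (.leaf 2)) (.leaf 3))

def tB1 : QT :=
  .node (.node (.leaf 21) (.leaf 38) (.leaf 21) (.node (.leaf 21) (.leaf 21) (.leaf 21) (.leaf
  43))) (.node (.leaf 36) (.leaf 33) (.node (.leaf 36) (.leaf 36) (.leaf 43) (.leaf 47)) (.leaf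
  47)) (.node (.leaf 19) (.leaf 0) (.leaf 0) (.node (.leaf 0) (.leaf 0) (.leaf 0) (.leaf 25)))
  (.node (.node (.leaf 25) (.leaf 47) (.leaf 25) (.leaf 20)) (.leaf 20) (.leaf 25) (.leaf 20))

def tB2 : QT :=
  .node (.node (.leaf 33) (.leaf 34) (.leaf 13) (.node (.leaf 13) (.leaf 34) (.leaf 6) (.leaf 6)))
  (.node (.leaf 8) (.leaf 8) (.leaf 32) (.leaf 32)) (.node (.leaf 20) (.leaf 6) (.leaf 1) (.leaf
  1)) (.node (.node (.leaf 6) (.leaf 24) (.leaf 6) (.leaf 24)) (.node (.leaf 24) (.leaf 31) (.leaf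
  24) (.leaf 3)) (.leaf 24) (.leaf 3))

def tB3 : QT :=
  .node (.node (.leaf 12) (.leaf 12) (.node (.leaf 19) (.leaf 9) (.leaf 19) (.leaf 9)) (.leaf 9))
  (.node (.leaf 26) (.leaf 41) (.leaf 5) (.node (.leaf 5) (.leaf 5) (.leaf 5) (.leaf 29))) (.node
  (.leaf 19) (.leaf 30) (.leaf 4) (.node (.leaf 4) (.leaf 10) (.leaf 4) (.leaf 10))) (.node (.leaf
  46) (.leaf 29) (.leaf 10) (.leaf 27))

def tB4 : QT :=
  .node (.node (.leaf 4) (.leaf 23) (.leaf 44) (.leaf 23)) (.node (.node (.leaf 10) (.leaf 10)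
  (.leaf 10) (.leaf 16)) (.leaf 16) (.leaf 16) (.leaf 22)) (.node (.leaf 48) (.leaf 39) (.leaf 48)
  (.node (.leaf 1) (.leaf 39) (.leaf 1) (.leaf 1))) (.node (.node (.leaf 37) (.leaf 37) (.leaf 39)
  (.leaf 37)) (.leaf 37) (.leaf 45) (.leaf 3))

def tB5 : QT :=
  .node (.node (.leaf 12) (.leaf 7) (.leaf 38) (.leaf 7)) (.node (.leaf 26) (.leaf 17) (.node
  (.leaf 7) (.leaf 17) (.leaf 28) (.leaf 17)) (.leaf 14)) (.node (.leaf 40) (.node (.leaf 40)
  (.leaf 28) (.leaf 18) (.leaf 18)) (.leaf 33) (.leaf 18)) (.node (.leaf 28) (.leaf 35) (.node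
  (.leaf 18) (.leaf 8) (.leaf 8) (.leaf 8)) (.leaf 35))

def pts : List Z3 := data.map Prod.fst

def dsq (a b : Z3) : ℤ := (a.1 - b.1) ^ 2 + (a.2.1 - b.2.1) ^ 2 + (a.2.2 - b.2.2) ^ 2

def det3 (a b c : Z3) : ℤ :=
  a.1 * (b.2.1 * c.2.2 - b.2.2 * c.2.1) - a.2.1 * (b.1 * c.2.2 - b.2.2 * c.1) +
    a.2.2 * (b.1 * c.2.1 - b.2.1 * c.1)

def Wit (a w : Z3) : Prop :=
  0 < dot a w ∧ dot a a * dot a a * dot w w ≤ 16 * sc * sc * (dot a w * dot a w) ∧
    ∀ b ∈ pts, dot a a * dot b w ≤ dot b b * dot a w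

instance (a w : Z3) : Decidable (Wit a w) := by unfold Wit; infer_instance

theorem chkA : chkAll (pts.map fun a => (a, 2 * dot a a)) tA0 tA1 tA2 tA3 tA4 tA5 = true := by
  decide +kernel

theorem chkB : chkAll (pts.map fun a => (a, 12 * sc * sc + dot a a))
    tB0 tB1 tB2 tB3 tB4 tB5 = true := by
  decide +kernel

theorem pts_pairwise : pts.Pairwise fun a b => 4 * sc * sc ≤ dsq a b := by
  decide +kernel

theorem pts_norm : ∀ a ∈ pts, 10 * sc * sc ≤ dot a a ∧ dot a a ≤ 16 * sc * sc := by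
  decide +kernel

theorem pts_length : pts.length = 49 := by
  decide +kernel

theorem data_wit : ∀ p ∈ data, Wit p.1 p.2.1 ∧ Wit p.1 p.2.2.1 ∧ Wit p.1 p.2.2.2 ∧
    det3 p.2.1 p.2.2.1 p.2.2.2 ≠ 0 := by
  decide +kernel

end Pool.Agent.Lib.MP_9fb481_co
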