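import Pool.Agent.Lib.MP_9fb481_co.Data

set_option autoImplicit false

namespace Pool.Agent.Lib.MP_9fb481_co

noncomputable def toE (a : Z3) : E := vec (a.1 / sc) (a.2.1 / sc) (a.2.2 / sc)

theorem sc_pos : (0 : ℝ) < sc := by norm_num [sc]

theorem dist_sq (u v : E) :
    dist u v ^ 2 = (u 0 - v 0) ^ 2 + (u 1 - v 1) ^ 2 + (u 2 - v 2) ^ 2 := by
  rw [dist_eq_norm, norm_E, Real.sq_sqrt (by positivity)]
  simp

theorem norm_sq' (u : E) : ‖u‖ ^ 2 = u 0 ^ 2 + u 1 ^ 2 + u 2 ^ 2 := by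
  rw [norm_E, Real.sq_sqrt (by positivity)]

theorem dot_cast (a b : Z3) :
    (dot a b : ℝ) = a.1 * b.1 + a.2.1 * b.2.1 + a.2.2 * b.2.2 := by
  simp [dot]

theorem dist_toE_sq (z : E) (a : Z3) :
    dist z (toE a) ^ 2 = ‖z‖ ^ 2 - 2 * ((a.1 * z 0 + a.2.1 * z 1 + a.2.2 * z 2) / sc) +
      (dot a a : ℝ) / (sc * sc) := by
  have := sc_pos
  rw [dist_sq, norm_sq', dot_cast]
  simp only [toE, vec_zero, vec_one, vec_two]
  field_simp
  ring

theorem norm_bounds {a : Z3} (ha : a ∈ pts) :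
    10 ≤ (dot a a : ℝ) / (sc * sc) ∧ (dot a a : ℝ) / (sc * sc) ≤ 16 := by
  have := sc_pos
  obtain ⟨h1, h2⟩ := pts_norm a ha
  have h1' : (10 : ℝ) * sc * sc ≤ dot a a := by exact_mod_cast h1
  have h2' : (dot a a : ℝ) ≤ 16 * sc * sc := by exact_mod_cast h2
  constructor
  · rw [le_div_iff₀ (by positivity)]; linarith
  · rw [div_le_iff₀ (by positivity)]; linarith

/-- The finite configuration. -/
def conf : Set E := insert 0 {q | ∃ a ∈ pts, toE a = q}

theorem cover (z : E) (hz : ‖z‖ < 4) : ∃ c ∈ conf, dist z c < 2 := by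
  have hs := sc_pos
  by_cases h2 : ‖z‖ < 2
  · exact ⟨0, Set.mem_insert _ _, by simpa using h2⟩
  have h2 := not_lt.1 h2
  have hne : 0 < z 0 ^ 2 + z 1 ^ 2 + z 2 ^ 2 := by rw [← norm_sq']; positivity
  by_cases h3 : ‖z‖ ≤ 3
  · obtain ⟨p, hp, hc⟩ := all_sound chkA hne
    obtain ⟨a, ha, rfl⟩ := List.mem_map.1 hp
    refine ⟨toE a, Or.inr ⟨a, ha, rfl⟩, lt_of_pow_lt_pow_left₀ 2 (by norm_num) ?_⟩
    rw [dist_toE_sq]
    obtain ⟨b1, b2⟩ := norm_bounds ha
    unfold CovR at hc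
    rw [← norm_E] at hc
    push_cast at hc
    set Q := (dot a a : ℝ) / (sc * sc) with hQ
    set d := (a.1 * z 0 + a.2.1 * z 1 + a.2.2 * z 2) / sc with hd
    have e1 : (dot a a : ℝ) = Q * (sc * sc) := by rw [hQ]; field_simp
    have e2 : (a.1 * z 0 + a.2.1 * z 1 + a.2.2 * z 2 : ℝ) = d * sc := by rw [hd]; field_simp
    rw [e1, e2] at hc
    have h4 : Q * ‖z‖ < 4 * d := by
      refine lt_of_mul_lt_mul_left (a := 2 * ((sc : ℝ) * sc)) ?_ (by positivity)
      linarith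
    nlinarith
  · have h3 := not_le.1 h3
    obtain ⟨p, hp, hc⟩ := all_sound chkB hne
    obtain ⟨a, ha, rfl⟩ := List.mem_map.1 hp
    refine ⟨toE a, Or.inr ⟨a, ha, rfl⟩, lt_of_pow_lt_pow_left₀ 2 (by norm_num) ?_⟩
    rw [dist_toE_sq]
    obtain ⟨b1, b2⟩ := norm_bounds ha
    unfold CovR at hc
    rw [← norm_E] at hc
    push_cast at hc
    set Q := (dot a a : ℝ) / (sc * sc) with hQ
    set d := (a.1 * z 0 + a.2.1 * z 1 + a.2.2 * z 2) / sc with hd
    have e1 : (dot a a : ℝ) = Q * (sc * sc) := by rw [hQ]; field_simp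
    have e2 : (a.1 * z 0 + a.2.1 * z 1 + a.2.2 * z 2 : ℝ) = d * sc := by rw [hd]; field_simp
    rw [e1, e2] at hc
    have h4 : (12 + Q) * ‖z‖ < 8 * d := by
      refine lt_of_mul_lt_mul_left (a := (sc : ℝ) * sc) ?_ (by positivity)
      linarith
    nlinarith

theorem two_le_dist {a b : Z3} (h : 4 * sc * sc ≤ dsq a b) : 2 ≤ dist (toE a) (toE b) := by
  have hs := sc_pos
  refine le_of_sq_le_sq₀' ?_
  rw [dist_sq]
  simp only [toE, vec_zero, vec_one, vec_two]
  have h' : (4 : ℝ) * sc * sc ≤ ((a.1 : ℝ) - b.1) ^ 2 + ((a.2.1 : ℝ) - b.2.1) ^ 2 +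
      ((a.2.2 : ℝ) - b.2.2) ^ 2 := by
    unfold dsq at h; exact_mod_cast h
  have e : ((a.1 : ℝ) / sc - b.1 / sc) ^ 2 + ((a.2.1 : ℝ) / sc - b.2.1 / sc) ^ 2 +
      ((a.2.2 : ℝ) / sc - b.2.2 / sc) ^ 2 = (((a.1 : ℝ) - b.1) ^ 2 + ((a.2.1 : ℝ) - b.2.1) ^ 2 +
      ((a.2.2 : ℝ) - b.2.2) ^ 2) / (sc * sc) := by field_simp
  rw [e, le_div_iff₀ (by positivity)]
  linarith
where
  le_of_sq_le_sq₀' {x : ℝ} {u v : E} (h : x ^ 2 ≤ dist u v ^ 2) : x ≤ dist u v :=
    le_of_sq_le_sq₀ h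
  le_of_sq_le_sq₀ {x : ℝ} {u v : E} (h : x ^ 2 ≤ dist u v ^ 2) : x ≤ dist u v :=
    (le_abs_self x).trans (abs_le_of_sq_le_sq h dist_nonneg)

theorem norm_toE {a : Z3} (ha : a ∈ pts) : 2 ≤ dist (0 : E) (toE a) := by
  have h := dist_toE_sq 0 a
  have := (norm_bounds ha).1
  simp only [norm_zero, PiLp.zero_apply, mul_zero, add_zero, zero_div] at h
  refine (le_abs_self 2).trans (abs_le_of_sq_le_sq ?_ dist_nonneg)
  linarith

theorem pts_pairwise' : (pts.map toE).Pairwise fun u v => 2 ≤ dist u v :=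
  List.pairwise_map.2 (pts_pairwise.imp two_le_dist)

theorem conf_packing : ∀ p ∈ conf, ∀ q ∈ conf, p ≠ q → 2 ≤ dist p q := by
  rintro p (rfl | ⟨a, ha, rfl⟩) q (rfl | ⟨b, hb, rfl⟩) hne
  · exact absurd rfl hne
  · exact norm_toE hb
  · rw [dist_comm]; exact norm_toE ha
  · have : Std.Symm (fun u v : E => 2 ≤ dist u v) := ⟨fun u v h => by rwa [dist_comm]⟩
    exact pts_pairwise'.forall (List.mem_map_of_mem ha) (List.mem_map_of_mem hb) hne

theorem exists_saturated : ∃ P : Set E, conf ⊆ P ∧ (∀ p ∈ P, ∀ q ∈ P, p ≠ q → 2 ≤ dist p q) ∧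
    ∀ z, ∃ q ∈ P, dist z q < 2 := by
  obtain ⟨P, h1, hP⟩ := zorn_subset_nonempty
    {P : Set E | ∀ p ∈ P, ∀ q ∈ P, p ≠ q → 2 ≤ dist p q}
    (fun c hc hchain _ => ⟨⋃₀ c, by
      rintro p ⟨s, hs, hp⟩ q ⟨t, ht, hq⟩ hne
      rcases hchain.total hs ht with h | h
      · exact hc ht p (h hp) q hq hne
      · exact hc hs p hp q (h hq) hne, fun s hs => Set.subset_sUnion_of_mem hs⟩) conf conf_packing
  refine ⟨P, h1, hP.prop, fun z => ?_⟩
  by_contra hz
  push Not at hz
  have : insert z P ⊆ P := hP.le_of_ge (by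
    rintro p (rfl | hp) q (rfl | hq) hne
    · exact absurd rfl hne
    · exact hz q hq
    · rw [dist_comm]; exact hz p hp
    · exact hP.prop p hp q hq hne) (Set.subset_insert z P)
  have := hz z (this (Set.mem_insert z P))
  rw [dist_self] at this
  linarith

/-- The point where the ray through `w` meets the bisector plane of `0` and `toE a`. -/
noncomputable def hit (a w : Z3) : E :=
  ((dot a a : ℝ) / (2 * sc * dot a w)) • vec w.1 w.2.1 w.2.2

theorem hit_props {a w : Z3} (h : Wit a w) :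
    ‖hit a w‖ ≤ 2 ∧ dist (hit a w) (toE a) = ‖hit a w‖ ∧
      ∀ b ∈ pts, ‖hit a w‖ ≤ dist (hit a w) (toE b) := by
  obtain ⟨h1, h2, h3⟩ := h
  have hs := sc_pos
  have h1' : (0 : ℝ) < dot a w := by exact_mod_cast h1
  have hd : ∀ b : Z3, (b.1 * hit a w 0 + b.2.1 * hit a w 1 + b.2.2 * hit a w 2 : ℝ) =
      (dot a a : ℝ) / (2 * sc * dot a w) * dot b w := by
    intro b
    rw [dot_cast b w]
    simp only [hit, PiLp.smul_apply, vec_zero, vec_one, vec_two, smul_eq_mul]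
    ring
  refine ⟨?_, ?_, fun b hb => ?_⟩
  · refine (le_abs_self _).trans (abs_le_of_sq_le_sq ?_ (by norm_num))
    have h2' : (dot a a : ℝ) * dot a a * dot w w ≤ 16 * sc * sc * (dot a w * dot a w) := by
      exact_mod_cast h2
    have e : ‖hit a w‖ ^ 2 = (dot a a : ℝ) * dot a a * dot w w /
        (4 * sc * sc * (dot a w * dot a w)) := by
      rw [norm_sq', dot_cast w w]
      simp only [hit, PiLp.smul_apply, vec_zero, vec_one, vec_two, smul_eq_mul]
      field_simp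
      ring
    rw [e, div_le_iff₀ (by positivity)]
    linarith
  · refine (pow_left_inj₀ dist_nonneg (norm_nonneg _) two_ne_zero).1 ?_
    rw [dist_toE_sq, hd]
    field_simp
    ring
  · refine (le_abs_self _).trans (abs_le_of_sq_le_sq ?_ dist_nonneg)
    rw [dist_toE_sq, hd]
    have h3' : (dot a a : ℝ) * dot b w ≤ dot b b * dot a w := by exact_mod_cast h3 b hb
    have e : 2 * ((dot a a : ℝ) / (2 * sc * dot a w) * dot b w / sc) =
        (dot a a : ℝ) * dot b w / dot a w / (sc * sc) := by field_simp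
    have : (dot a a : ℝ) * dot b w / dot a w / (sc * sc) ≤ (dot b b : ℝ) / (sc * sc) := by
      gcongr
      rw [div_le_iff₀ h1']; exact h3'
    rw [e]
    linarith

theorem li_hits {a w1 w2 w3 : Z3} (ha : (0 : ℝ) < dot a a) (h1 : Wit a w1) (h2 : Wit a w2)
    (h3 : Wit a w3) (hd : det3 w1 w2 w3 ≠ 0) :
    LinearIndependent ℝ ![hit a w1, hit a w2, hit a w3] := by
  have hs := sc_pos
  have p1 : (0 : ℝ) < dot a w1 := by exact_mod_cast h1.1
  have p2 : (0 : ℝ) < dot a w2 := by exact_mod_cast h2.1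
  have p3 : (0 : ℝ) < dot a w3 := by exact_mod_cast h3.1
  have hd' : ((det3 w1 w2 w3 : ℤ) : ℝ) ≠ 0 := by exact_mod_cast hd
  rw [Fintype.linearIndependent_iff]
  intro g hg
  rw [Fin.sum_univ_three] at hg
  have e0 := congrArg (fun u : E => u 0) hg
  have e1 := congrArg (fun u : E => u 1) hg
  have e2 := congrArg (fun u : E => u 2) hg
  simp only [hit, Matrix.cons_val_zero, Matrix.cons_val_one, Matrix.cons_val, PiLp.add_apply,
    PiLp.smul_apply, vec_zero, vec_one, vec_two, smul_eq_mul, PiLp.zero_apply] at e0 e1 e2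
  set c1 := (dot a a : ℝ) / (2 * sc * dot a w1)
  set c2 := (dot a a : ℝ) / (2 * sc * dot a w2)
  set c3 := (dot a a : ℝ) / (2 * sc * dot a w3)
  have q1 : c1 ≠ 0 := by positivity
  have q2 : c2 ≠ 0 := by positivity
  have q3 : c3 ≠ 0 := by positivity
  unfold det3 at hd'
  push_cast at hd'
  intro i
  fin_cases i
  · refine mul_right_cancel₀ (mul_ne_zero q1 hd') ?_
    simp only [Fin.zero_eta, zero_mul]
    linear_combination ((w2.2.1 : ℝ) * w3.2.2 - w2.2.2 * w3.2.1) * e0 -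
      ((w2.1 : ℝ) * w3.2.2 - w2.2.2 * w3.1) * e1 + ((w2.1 : ℝ) * w3.2.1 - w2.2.1 * w3.1) * e2
  · refine mul_right_cancel₀ (mul_ne_zero q2 hd') ?_
    simp only [Fin.mk_one, zero_mul]
    linear_combination -((w1.2.1 : ℝ) * w3.2.2 - w1.2.2 * w3.2.1) * e0 +
      ((w1.1 : ℝ) * w3.2.2 - w1.2.2 * w3.1) * e1 - ((w1.1 : ℝ) * w3.2.1 - w1.2.1 * w3.1) * e2
  · refine mul_right_cancel₀ (mul_ne_zero q3 hd') ?_
    simp only [Fin.reduceFinMk, zero_mul]
    linear_combination ((w1.2.1 : ℝ) * w2.2.2 - w1.2.2 * w2.2.1) * e0 -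
      ((w1.1 : ℝ) * w2.2.2 - w1.2.2 * w2.1) * e1 + ((w1.1 : ℝ) * w2.2.1 - w1.2.1 * w2.1) * e2

theorem finrank_two {S : Set E} {q : E} (hq : q ≠ 0) (hS : ∀ x ∈ S, dist x 0 = dist x q)
    {x : Fin 3 → E} (hx : ∀ i, x i ∈ S) (hli : LinearIndependent ℝ x) :
    Module.finrank ℝ (vectorSpan ℝ S) = 2 := by
  apply le_antisymm
  · have : Fact (Module.finrank ℝ E = 2 + 1) := ⟨by simp⟩
    rw [← Submodule.finrank_orthogonal_span_singleton (𝕜 := ℝ) (n := 2) hq]
    apply Submodule.finrank_mono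
    rw [vectorSpan_def, Submodule.span_le]
    rintro _ ⟨u, hu, v, hv, rfl⟩
    rw [SetLike.mem_coe, Submodule.mem_orthogonal_singleton_iff_inner_right]
    have h1 := congrArg (· ^ 2) (hS u hu)
    have h2 := congrArg (· ^ 2) (hS v hv)
    simp only [dist_sq, PiLp.zero_apply] at h1 h2
    simp only [vsub_eq_sub, PiLp.inner_apply, Fin.sum_univ_three, PiLp.sub_apply,
      RCLike.inner_apply, conj_trivial]
    linarith
  · rw [← hli.affineIndependent.finrank_vectorSpan (n := 2) (by simp)]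
    apply Submodule.finrank_mono
    apply vectorSpan_mono
    rintro _ ⟨i, rfl⟩
    exact hx i

theorem main : ∃ P : Set E, (∀ p ∈ P, ∀ q ∈ P, p ≠ q → 2 ≤ dist p q) ∧
    (∀ z, ∃ q ∈ P, dist z q < 2) ∧
    ∃ p ∈ P, {q | q ∈ P ∧ q ≠ p ∧ Module.finrank ℝ (vectorSpan ℝ
      ({x | ∀ r ∈ P, dist x p ≤ dist x r} ∩ {x | ∀ r ∈ P, dist x q ≤ dist x r})) = 2}.ncard
      = 49 := by
  classical
  obtain ⟨P, hconf, hP, hsat⟩ := exists_saturated
  have h0 : (0 : E) ∈ P := hconf (Set.mem_insert _ _)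
  have far : ∀ r ∈ P, r ∉ conf → 4 ≤ ‖r‖ := by
    intro r hr hn
    by_contra hlt
    obtain ⟨c, hc, hd⟩ := cover r (not_le.1 hlt)
    have := hP r hr c (hconf hc) (fun h => hn (h ▸ hc))
    linarith
  refine ⟨P, hP, hsat, 0, h0, ?_⟩
  have hset : {q | q ∈ P ∧ q ≠ 0 ∧ Module.finrank ℝ (vectorSpan ℝ
      ({x | ∀ r ∈ P, dist x 0 ≤ dist x r} ∩ {x | ∀ r ∈ P, dist x q ≤ dist x r})) = 2} =
      ↑(pts.map toE).toFinset := by
    ext q
    simp only [Set.mem_ofPred_eq, List.coe_toFinset, List.mem_map]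
    constructor
    · rintro ⟨hq, hq0, hr⟩
      by_contra hn
      have hnc : q ∉ conf := by
        rintro (h | h)
        · exact hq0 h
        · exact hn h
      have hfar := far q hq hnc
      have : ({x | ∀ r ∈ P, dist x 0 ≤ dist x r} ∩ {x | ∀ r ∈ P, dist x q ≤ dist x r} : Set E)
          = ∅ := by
        ext x
        simp only [Set.mem_inter_iff, Set.mem_ofPred_eq, Set.mem_empty_iff_false, iff_false]
        rintro ⟨h1, h2⟩
        obtain ⟨c, hc, hd⟩ := hsat x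
        have a1 := h1 c hc
        have a2 := h2 c hc
        have a3 := dist_triangle_left q 0 x
        rw [dist_zero_right] at a3
        linarith
      rw [this, vectorSpan_empty] at hr
      simp at hr
    · rintro ⟨a, ha, rfl⟩
      have hne : toE a ≠ 0 := by
        intro h
        have := norm_toE ha
        rw [h, dist_self] at this
        linarith
      have hqP : toE a ∈ P := hconf (Or.inr ⟨a, ha, rfl⟩)
      refine ⟨hqP, hne, ?_⟩
      obtain ⟨p, hp, rfl⟩ := List.mem_map.1 ha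
      obtain ⟨w1, w2, w3, hd⟩ := data_wit p hp
      have hpos : (0 : ℝ) < dot p.1 p.1 := by
        have h1 := (norm_bounds ha).1
        have hs := sc_pos
        rw [le_div_iff₀ (by positivity)] at h1
        nlinarith [mul_pos hs hs]
      have mem : ∀ w, Wit p.1 w → hit p.1 w ∈
          ({x | ∀ r ∈ P, dist x 0 ≤ dist x r} ∩
            {x | ∀ r ∈ P, dist x (toE p.1) ≤ dist x r} : Set E) := by
        intro w hw
        obtain ⟨b1, b2, b3⟩ := hit_props hw
        have key : ∀ r ∈ P, ‖hit p.1 w‖ ≤ dist (hit p.1 w) r := by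
          intro r hr
          by_cases hc : r ∈ conf
          · rcases hc with rfl | ⟨b, hb, rfl⟩
            · simp
            · exact b3 b hb
          · have h4 := far r hr hc
            have a3 := dist_triangle_left r 0 (hit p.1 w)
            rw [dist_zero_right, dist_zero_right] at a3
            linarith
        exact ⟨fun r hr => by rw [dist_zero_right]; exact key r hr,
          fun r hr => by rw [b2]; exact key r hr⟩
      refine finrank_two hne (fun x hx => le_antisymm (hx.1 _ hqP) (hx.2 _ h0)) ?_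
        (li_hits hpos w1 w2 w3 hd)
      intro i
      fin_cases i
      · exact mem _ w1
      · exact mem _ w2
      · exact mem _ w3
  rw [hset, Set.ncard_coe_finset, List.toFinset_card_of_nodup, List.length_map, pts_length]
  refine pts_pairwise'.imp ?_
  intro u v h he
  rw [he, dist_self] at h
  linarith

end Pool.Agent.Lib.MP_9fb481_co
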